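import Pool.Agent.H38.Odd.Fin

/-!
ODD-PATHS is NP-hard (already on simple graphs), so it is in co-NP only if NP is contained in co-NP.
-/

namespace Pool.Agent.Results.MP_636301_lc.Hard

open Pool.Agent.H38.NP Pool.Agent.H38.Odd

theorem result : NPHard (lang OP) := op_nph.npHard fun _ _ => Iff.rfl

end Pool.Agent.Results.MP_636301_lc.Hard
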